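import Pool.Agent.H23.UC.Stm3

/-!
# Random series with independent coefficients

The law of `∑' n, ξ n • h n` for independent `ξ n ∈ [-1, 1]` with bounded densities and
`∑ ‖h n‖ < ∞` is a probability measure carried by a compact set, and it is the law of
`ψ + x • h n + y • h k` with `ψ` independent of `(x, y)`, which has a bounded density.
-/

set_option autoImplicit false

open Set Filter Topology MeasureTheory

noncomputable section

namespace Pool.Agent.H68.UC

open Pool.Agent.H23.UC

/-- a real number moved into `[-1, 1]` -/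
def clip (x : ℝ) : ℝ := max (-1) (min x 1)

theorem continuous_clip : Continuous clip :=
  continuous_const.max (continuous_id.min continuous_const)

theorem abs_clip (x : ℝ) : |clip x| ≤ 1 :=
  abs_le.2 ⟨le_max_left _ _, max_le (by norm_num) (min_le_right _ _)⟩

theorem clip_mem (x : ℝ) : clip x ∈ Icc (-1 : ℝ) 1 :=
  ⟨le_max_left _ _, max_le (by norm_num) (min_le_right _ _)⟩

theorem clip_of_mem {x : ℝ} (h : x ∈ Icc (-1 : ℝ) 1) : clip x = x := by
  rw [clip, min_eq_left h.2, max_eq_right h.1]

theorem measurable_update (n : ℕ) :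
    Measurable fun p : (ℕ → ℝ) × ℝ => Function.update p.1 n p.2 := by
  refine measurable_pi_iff.2 fun i => ?_
  by_cases hi : i = n
  · subst hi
    simpa using measurable_snd
  · simp only [Function.update_of_ne hi]
    exact (measurable_pi_apply i).comp measurable_fst

/-- one coordinate of a product measure may be taken anew from its factor -/
theorem infinitePi_update (ν : ℕ → Measure ℝ) [∀ n, IsProbabilityMeasure (ν n)] (n : ℕ) :
    ((Measure.infinitePi ν).prod (ν n)).map
      (fun p : (ℕ → ℝ) × ℝ => Function.update p.1 n p.2) = Measure.infinitePi ν := by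
  refine Measure.eq_infinitePi _ fun s t ht => ?_
  rw [Measure.map_apply (measurable_update n)
    (MeasurableSet.pi s.countable_toSet fun i _ => ht i)]
  have he : (fun p : (ℕ → ℝ) × ℝ => Function.update p.1 n p.2) ⁻¹' (Set.pi (s : Set ℕ) t) =
      (Set.pi ((s.erase n : Finset ℕ) : Set ℕ) t) ×ˢ (if n ∈ s then t n else univ) := by
    ext p
    simp only [Set.mem_preimage, Set.mem_pi, Finset.mem_coe, Set.mem_prod, Finset.mem_erase]
    constructor
    · intro h
      refine ⟨fun i hi => ?_, ?_⟩
      · simpa [Function.update_of_ne hi.1] using h i hi.2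
      · split_ifs with hn
        · simpa using h n hn
        · trivial
    · rintro ⟨h1, h2⟩ i hi
      by_cases hin : i = n
      · subst hin
        rw [if_pos hi] at h2
        simpa using h2
      · simpa [Function.update_of_ne hin] using h1 i ⟨hin, hi⟩
  rw [he, Measure.prod_prod, Measure.infinitePi_pi _ fun i _ => ht i]
  split_ifs with hn
  · rw [Finset.prod_erase_mul _ _ hn]
  · rw [Finset.erase_eq_of_notMem hn, measure_univ, mul_one]

/-- two coordinates of a product measure may be taken anew from their factors -/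
theorem infinitePi_update_two (ν : ℕ → Measure ℝ) [∀ n, IsProbabilityMeasure (ν n)] (n k : ℕ) :
    ((Measure.infinitePi ν).prod ((ν n).prod (ν k))).map
      (fun p : (ℕ → ℝ) × (ℝ × ℝ) => Function.update (Function.update p.1 n p.2.1) k p.2.2) =
      Measure.infinitePi ν := by
  have hU : Measurable fun p : (ℕ → ℝ) × (ℝ × ℝ) =>
      Function.update (Function.update p.1 n p.2.1) k p.2.2 :=
    (measurable_update k).comp
      (((measurable_update n).comp (measurable_fst.prodMk (measurable_fst.comp measurable_snd))).prodMk
        (measurable_snd.comp measurable_snd))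
  have h1 : (Measure.infinitePi ν).prod ((ν n).prod (ν k)) =
      (((Measure.infinitePi ν).prod (ν n)).prod (ν k)).map MeasurableEquiv.prodAssoc :=
    (Measure.prodAssoc_prod).symm
  have h2 : (Measure.infinitePi ν).prod (ν k) =
      (((Measure.infinitePi ν).prod (ν n)).prod (ν k)).map
        (Prod.map (fun p : (ℕ → ℝ) × ℝ => Function.update p.1 n p.2) id) := by
    rw [← Measure.map_prod_map _ _ (measurable_update n) measurable_id, infinitePi_update,
      Measure.map_id]
  refine Eq.trans ?_ (infinitePi_update ν k)
  rw [h2, Measure.map_map (measurable_update k) ((measurable_update n).prodMap measurable_id),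
    h1, Measure.map_map hU MeasurableEquiv.prodAssoc.measurable]
  rfl

variable {E : Type} [NormedAddCommGroup E] [NormedSpace ℝ E]

/-- the series with the coefficients moved into `[-1, 1]` and without the terms in `D` -/
def ser (h : ℕ → E) (D : Finset ℕ) (ξ : ℕ → ℝ) : E :=
  ∑' j, (if j ∈ D then 0 else clip (ξ j)) • h j

theorem norm_term_le (h : ℕ → E) (D : Finset ℕ) (j : ℕ) (ξ : ℕ → ℝ) :
    ‖(if j ∈ D then 0 else clip (ξ j)) • h j‖ ≤ ‖h j‖ := by
  rw [norm_smul]
  refine mul_le_of_le_one_left (norm_nonneg _) ?_
  split_ifs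
  · simp
  · rw [Real.norm_eq_abs]
    exact abs_clip _

variable [CompleteSpace E]

theorem continuous_ser {h : ℕ → E} (hs : Summable fun n => ‖h n‖) (D : Finset ℕ) :
    Continuous (ser h D) := by
  refine continuous_tsum (u := fun n => ‖h n‖) (fun j => ?_) hs fun j ξ => norm_term_le h D j ξ
  split_ifs
  · exact continuous_const.smul continuous_const
  · exact (continuous_clip.comp (continuous_apply j)).smul continuous_const

theorem summable_term {h : ℕ → E} (hs : Summable fun n => ‖h n‖) (D : Finset ℕ) (ξ : ℕ → ℝ) :
    Summable fun j => (if j ∈ D then 0 else clip (ξ j)) • h j :=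
  Summable.of_norm_bounded hs fun j => norm_term_le h D j ξ

theorem ser_update {h : ℕ → E} (hs : Summable fun n => ‖h n‖) {n k : ℕ} (hnk : n ≠ k)
    (ξ : ℕ → ℝ) (x y : ℝ) :
    ser h ∅ (Function.update (Function.update ξ n x) k y) =
      ser h {n, k} ξ + (clip x • h n + clip y • h k) := by
  have h1 : (∑' j, if j = n then clip x • h n else 0) = clip x • h n := tsum_ite_eq n _
  have h2 : (∑' j, if j = k then clip y • h k else 0) = clip y • h k := tsum_ite_eq k _
  have s1 : Summable fun j => if j = n then clip x • h n else 0 :=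
    summable_of_ne_finset_zero (s := {n}) fun j hj => by
      rw [Finset.mem_singleton] at hj
      exact if_neg hj
  have s2 : Summable fun j => if j = k then clip y • h k else 0 :=
    summable_of_ne_finset_zero (s := {k}) fun j hj => by
      rw [Finset.mem_singleton] at hj
      exact if_neg hj
  rw [← h1, ← h2, ← s1.tsum_add s2, ser, ser, ← (summable_term hs _ ξ).tsum_add (s1.add s2)]
  refine tsum_congr fun j => ?_
  by_cases hn : j = n
  · subst hn
    simp [hnk]
  · by_cases hk : j = k
    · subst hk
      simp [hn]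
    · simp [hn, hk]

theorem ae_mem (ν : ℕ → Measure ℝ) [∀ n, IsProbabilityMeasure (ν n)]
    (hν : ∀ n, ν n (Icc (-1) 1)ᶜ = 0) :
    ∀ᵐ ξ ∂(Measure.infinitePi ν), ∀ n, ξ n ∈ Icc (-1 : ℝ) 1 := by
  rw [ae_all_iff]
  intro n
  have h := (measurePreserving_eval_infinitePi ν n).quasiMeasurePreserving.ae
    (p := fun x => x ∈ Icc (-1 : ℝ) 1) (ae_iff.2 (hν n))
  exact h

/-- the law on the plane of two independent numbers -/
theorem plane_le {a b : Measure ℝ} [IsProbabilityMeasure a] [IsProbabilityMeasure b]
    {c d : ENNReal} (ha : a ≤ c • volume) (hb : b ≤ d • volume) :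
    (a.prod b).map Complex.measurableEquivRealProd.symm ≤ (c * d) • (volume : Measure ℂ) := by
  have h1 : a.prod b ≤ (c * d) • ((volume : Measure ℝ).prod (volume : Measure ℝ)) := by
    refine (Measure.prod_mono ha hb).trans ?_
    rw [Measure.prod_smul_left, Measure.prod_smul_right, smul_smul]
  refine (Measure.map_mono h1 Complex.measurableEquivRealProd.symm.measurable).trans ?_
  rw [Measure.map_smul]
  refine le_of_eq (congrArg _ ?_)
  exact Complex.volume_preserving_equiv_real_prod.symm.map_eq

theorem stSeries : StSeries := by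
  intro E _ _ _ _ _ _ h ν _ hd hI hs
  have hae : (fun ξ : ℕ → ℝ => ∑' n, ξ n • h n) =ᵐ[Measure.infinitePi ν] ser h ∅ := by
    filter_upwards [ae_mem ν hI] with ξ hξ
    refine tsum_congr fun j => ?_
    rw [if_neg (Finset.notMem_empty j), clip_of_mem (hξ j)]
  have hm : ∀ D, Measurable (ser h D) := fun D => (continuous_ser hs D).measurable
  rw [Measure.map_congr hae]
  refine ⟨Measure.isProbabilityMeasure_map (hm ∅).aemeasurable, ?_, ?_⟩
  · refine ⟨ser h ∅ '' Set.pi univ fun _ => Icc (-1 : ℝ) 1,
      (isCompact_univ_pi fun _ => isCompact_Icc).image (continuous_ser hs ∅), ?_⟩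
    have hK : IsCompact (ser h ∅ '' Set.pi univ fun _ => Icc (-1 : ℝ) 1) :=
      (isCompact_univ_pi fun _ => isCompact_Icc).image (continuous_ser hs ∅)
    rw [Measure.map_apply (hm ∅) hK.measurableSet.compl]
    have he : ser h ∅ ⁻¹' (ser h ∅ '' Set.pi univ fun _ => Icc (-1 : ℝ) 1)ᶜ = ∅ := by
      rw [Set.eq_empty_iff_forall_notMem]
      intro ξ hξ
      refine hξ ⟨fun j => clip (ξ j), fun j _ => clip_mem _, tsum_congr fun j => ?_⟩
      rw [clip_of_mem (clip_mem _)]
    rw [he, measure_empty]
  · intro n k hnk
    obtain ⟨c, hc, hc'⟩ := hd n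
    obtain ⟨d, hd, hd'⟩ := hd k
    have he : Measurable fun p : E × ℂ => p.1 + (p.2.re • h n + p.2.im • h k) := by
      have : Continuous fun p : E × ℂ => p.1 + (p.2.re • h n + p.2.im • h k) := by
        fun_prop
      exact this.measurable
    have hsy := Complex.measurableEquivRealProd.symm.measurable
    refine ⟨(Measure.infinitePi ν).map (ser h {n, k}),
      ((ν n).prod (ν k)).map Complex.measurableEquivRealProd.symm, c * d,
      Measure.isProbabilityMeasure_map (hm _).aemeasurable,
      Measure.isProbabilityMeasure_map hsy.aemeasurable,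
      ENNReal.mul_ne_top hc hd, plane_le hc' hd', ?_⟩
    have hU : Measurable fun p : (ℕ → ℝ) × (ℝ × ℝ) =>
        Function.update (Function.update p.1 n p.2.1) k p.2.2 :=
      (measurable_update k).comp
        (((measurable_update n).comp
          (measurable_fst.prodMk (measurable_fst.comp measurable_snd))).prodMk
        (measurable_snd.comp measurable_snd))
    have h1 : (Measure.infinitePi ν).map (ser h ∅) =
        ((Measure.infinitePi ν).prod ((ν n).prod (ν k))).map (ser h ∅ ∘
          fun p : (ℕ → ℝ) × (ℝ × ℝ) =>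
            Function.update (Function.update p.1 n p.2.1) k p.2.2) := by
      rw [← Measure.map_map (hm ∅) hU, infinitePi_update_two]
    rw [h1, Measure.map_prod_map _ _ (hm _) hsy, Measure.map_map he ((hm _).prodMap hsy)]
    refine Measure.map_congr ?_
    have hx : ∀ᵐ p ∂((Measure.infinitePi ν).prod ((ν n).prod (ν k))),
        p.2.1 ∈ Icc (-1 : ℝ) 1 := by
      have h2 := (Measure.quasiMeasurePreserving_snd (μ := Measure.infinitePi ν)
        (ν := (ν n).prod (ν k))).ae (p := fun q => q.1 ∈ Icc (-1 : ℝ) 1)
        ((Measure.quasiMeasurePreserving_fst (μ := ν n) (ν := ν k)).ae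
          (p := fun x => x ∈ Icc (-1 : ℝ) 1) (ae_iff.2 (hI n)))
      exact h2
    have hy : ∀ᵐ p ∂((Measure.infinitePi ν).prod ((ν n).prod (ν k))),
        p.2.2 ∈ Icc (-1 : ℝ) 1 := by
      have h2 := (Measure.quasiMeasurePreserving_snd (μ := Measure.infinitePi ν)
        (ν := (ν n).prod (ν k))).ae (p := fun q => q.2 ∈ Icc (-1 : ℝ) 1)
        ((Measure.quasiMeasurePreserving_snd (μ := ν n) (ν := ν k)).ae
          (p := fun x => x ∈ Icc (-1 : ℝ) 1) (ae_iff.2 (hI k)))
      exact h2
    filter_upwards [hx, hy] with p h3 h4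
    simp only [Function.comp_apply]
    rw [ser_update hs hnk, clip_of_mem h3, clip_of_mem h4]
    rfl

end Pool.Agent.H68.UC
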