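import Pool.Agent.H68.UC.Series
import Pool.Agent.H23.UC.Stm6

/-!
# Random series with independent coefficients: several directions

The law of `∑' n, ξ n • h n` for independent `ξ n ∈ [-1, 1]` with bounded densities is the law of
`ψ + ∑ j, x j • h (n j)` with `ψ` independent of the vector `x`, which has a bounded density, for
different indices `n j`.
-/

set_option autoImplicit false

open Set Filter Topology MeasureTheory

noncomputable section

namespace Pool.Agent.H68.UC

open Pool.Agent.H23.UC

variable {d : ℕ}

theorem measurable_extend {n : Fin d → ℕ} (hn : Function.Injective n) :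
    Measurable fun p : (ℕ → ℝ) × (Fin d → ℝ) => Function.extend n p.2 p.1 := by
  refine measurable_pi_iff.2 fun i => ?_
  by_cases hi : ∃ j, n j = i
  · obtain ⟨j, rfl⟩ := hi
    simp only [hn.extend_apply]
    exact (measurable_pi_apply j).comp measurable_snd
  · simp only [Function.extend_apply' _ _ _ hi]
    exact (measurable_pi_apply i).comp measurable_fst

/-- some coordinates of a product measure may be taken anew from their factors -/
theorem infinitePi_extend (ν : ℕ → Measure ℝ) [∀ n, IsProbabilityMeasure (ν n)] {n : Fin d → ℕ}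
    (hn : Function.Injective n) :
    ((Measure.infinitePi ν).prod (Measure.pi fun j => ν (n j))).map
      (fun p : (ℕ → ℝ) × (Fin d → ℝ) => Function.extend n p.2 p.1) = Measure.infinitePi ν := by
  refine Measure.eq_infinitePi _ fun s t ht => ?_
  rw [Measure.map_apply (measurable_extend hn)
    (MeasurableSet.pi s.countable_toSet fun i _ => ht i)]
  have he : (fun p : (ℕ → ℝ) × (Fin d → ℝ) => Function.extend n p.2 p.1) ⁻¹'
        (Set.pi (s : Set ℕ) t) =
      (Set.pi ((s \ Finset.univ.image n : Finset ℕ) : Set ℕ) t) ×ˢ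
        (Set.pi univ fun j => if n j ∈ s then t (n j) else univ) := by
    ext p
    simp only [Set.mem_preimage, Set.mem_pi, Finset.mem_coe, Set.mem_prod, Finset.mem_sdiff,
      Finset.mem_image, Finset.mem_univ, true_and]
    constructor
    · intro h
      refine ⟨fun i hi => ?_, fun j _ => ?_⟩
      · have h1 := h i hi.1
        rwa [Function.extend_apply' _ _ _ hi.2] at h1
      · split_ifs with hj
        · have h1 := h _ hj
          rwa [hn.extend_apply] at h1
        · trivial
    · rintro ⟨h1, h2⟩ i hi
      by_cases hin : ∃ j, n j = i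
      · obtain ⟨j, rfl⟩ := hin
        have h3 := h2 j (Set.mem_univ j)
        rw [if_pos hi] at h3
        rwa [hn.extend_apply]
      · rw [Function.extend_apply' _ _ _ hin]
        exact h1 i ⟨hi, hin⟩
  rw [he, Measure.prod_prod, Measure.infinitePi_pi _ fun i _ => ht i, Measure.pi_pi]
  have h1 : ∏ j : Fin d, ν (n j) (if n j ∈ s then t (n j) else univ) =
      ∏ i ∈ Finset.univ.image n, if i ∈ s then ν i (t i) else 1 := by
    rw [Finset.prod_image fun a _ b _ h => hn h]
    refine Finset.prod_congr rfl fun j _ => ?_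
    split_ifs
    · rfl
    · exact measure_univ
  rw [h1, Finset.prod_ite_mem, Finset.inter_comm, mul_comm]
  exact Finset.prod_inter_mul_prod_sdiff s (Finset.univ.image n) fun i => ν i (t i)

/-- product measures with bounded densities -/
theorem pi_le_smul {ν : Fin d → Measure ℝ} [∀ j, SigmaFinite (ν j)] {c : Fin d → NNReal}
    (h : ∀ j, ν j ≤ (c j) • (volume : Measure ℝ)) :
    Measure.pi ν ≤ (∏ j, c j) • (volume : Measure (Fin d → ℝ)) := by
  have h1 : Measure.pi (fun j => (c j) • (volume : Measure ℝ)) =
      (∏ j, c j) • (volume : Measure (Fin d → ℝ)) := by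
    refine Measure.pi_eq fun s _ => ?_
    rw [Measure.smul_apply, volume_pi, Measure.pi_pi]
    simp only [Measure.smul_apply]
    rw [Finset.prod_smul]
  rw [← h1]
  refine Measure.le_iff.2 fun s hs => ?_
  have h2 : (Measure.pi ν).toOuterMeasure ≤
      OuterMeasure.pi fun j => ((c j) • (volume : Measure ℝ)).toOuterMeasure := by
    rw [OuterMeasure.le_pi]
    intro t _
    refine le_trans (le_of_eq ?_) (Finset.prod_le_prod' fun j _ => h j (t j))
    exact Measure.pi_pi ν t
  refine (h2 s).trans (le_of_eq ?_)
  rw [Measure.pi, toMeasure_apply _ _ hs]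

variable {E : Type} [NormedAddCommGroup E] [NormedSpace ℝ E] [CompleteSpace E]

theorem ser_extend {h : ℕ → E} (hs : Summable fun n => ‖h n‖) {n : Fin d → ℕ}
    (hn : Function.Injective n) (ξ : ℕ → ℝ) (x : Fin d → ℝ) :
    ser h ∅ (Function.extend n x ξ) =
      ser h (Finset.univ.image n) ξ + ∑ j, clip (x j) • h (n j) := by
  have h1 : ∑ j, clip (x j) • h (n j) =
      ∑' i, if i ∈ Finset.univ.image n then clip (Function.extend n x ξ i) • h i else 0 := by
    rw [tsum_eq_sum (s := Finset.univ.image n) fun i hi => if_neg hi,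
      Finset.sum_image fun a _ b _ h => hn h]
    refine Finset.sum_congr rfl fun j _ => ?_
    rw [if_pos (Finset.mem_image_of_mem n (Finset.mem_univ j)), hn.extend_apply]
  have s1 : Summable fun i =>
      if i ∈ Finset.univ.image n then clip (Function.extend n x ξ i) • h i else 0 :=
    summable_of_ne_finset_zero (s := Finset.univ.image n) fun i hi => if_neg hi
  rw [h1, ser, ser, ← (summable_term hs _ ξ).tsum_add s1]
  refine tsum_congr fun i => ?_
  by_cases hi : i ∈ Finset.univ.image n
  · rw [if_neg (Finset.notMem_empty i), if_pos hi, if_pos hi, zero_smul, zero_add]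
  · rw [if_neg (Finset.notMem_empty i), if_neg hi, if_neg hi, add_zero,
      Function.extend_apply' _ _ _ fun hj => ?_]
    obtain ⟨j, hj⟩ := hj
    exact hi (hj ▸ Finset.mem_image_of_mem n (Finset.mem_univ j))

theorem stSeriesD : StSeriesD := by
  intro E _ _ _ _ _ _ h ν _ hd hI hs d n hn
  have hae : (fun ξ : ℕ → ℝ => ∑' n, ξ n • h n) =ᵐ[Measure.infinitePi ν] ser h ∅ := by
    filter_upwards [ae_mem ν hI] with ξ hξ
    refine tsum_congr fun j => ?_
    rw [if_neg (Finset.notMem_empty j), clip_of_mem (hξ j)]
  have hm : ∀ D, Measurable (ser h D) := fun D => (continuous_ser hs D).measurable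
  rw [Measure.map_congr hae]
  have hd' : ∀ j : Fin d, ∃ c : NNReal, ν (n j) ≤ c • (volume : Measure ℝ) := by
    intro j
    obtain ⟨c, hc, hc'⟩ := hd (n j)
    refine ⟨c.toNNReal, ?_⟩
    rw [← ENNReal.coe_toNNReal hc] at hc'
    exact hc'
  choose c hc using hd'
  have he : Measurable fun p : E × EuclideanSpace ℝ (Fin d) => p.1 + ∑ j, p.2 j • h (n j) := by
    have : Continuous fun p : E × EuclideanSpace ℝ (Fin d) => p.1 + ∑ j, p.2 j • h (n j) := by
      fun_prop
    exact this.measurable
  have hsy : Measurable (WithLp.toLp 2 : (Fin d → ℝ) → EuclideanSpace ℝ (Fin d)) :=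
    (PiLp.volume_preserving_toLp (Fin d)).measurable
  refine ⟨(Measure.infinitePi ν).map (ser h (Finset.univ.image n)),
    (Measure.pi fun j => ν (n j)).map (WithLp.toLp 2), ((∏ j, c j : NNReal) : ENNReal),
    Measure.isProbabilityMeasure_map (hm _).aemeasurable,
    Measure.isProbabilityMeasure_map hsy.aemeasurable, ENNReal.coe_ne_top, ?_, ?_⟩
  · refine (Measure.map_mono (pi_le_smul hc) hsy).trans (le_of_eq ?_)
    rw [Measure.map_smul, (PiLp.volume_preserving_toLp (Fin d)).map_eq]
    rfl
  · have h1 : (Measure.infinitePi ν).map (ser h ∅) =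
        ((Measure.infinitePi ν).prod (Measure.pi fun j => ν (n j))).map (ser h ∅ ∘
          fun p : (ℕ → ℝ) × (Fin d → ℝ) => Function.extend n p.2 p.1) := by
      rw [← Measure.map_map (hm ∅) (measurable_extend hn), infinitePi_extend ν hn]
    rw [h1, Measure.map_prod_map _ _ (hm _) hsy, Measure.map_map he ((hm _).prodMap hsy)]
    refine Measure.map_congr ?_
    have hx : ∀ᵐ p ∂((Measure.infinitePi ν).prod (Measure.pi fun j => ν (n j))),
        ∀ j, p.2 j ∈ Icc (-1 : ℝ) 1 := by
      rw [ae_all_iff]
      intro j
      have h2 := (Measure.quasiMeasurePreserving_snd (μ := Measure.infinitePi ν)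
        (ν := Measure.pi fun j => ν (n j))).ae (p := fun q => q j ∈ Icc (-1 : ℝ) 1)
        ((Measure.quasiMeasurePreserving_eval (fun j => ν (n j)) j).ae
          (p := fun x => x ∈ Icc (-1 : ℝ) 1) (ae_iff.2 (hI (n j))))
      exact h2
    filter_upwards [hx] with p h3
    simp only [Function.comp_apply]
    rw [ser_extend hs hn]
    simp only [clip_of_mem (h3 _)]
    rfl

end Pool.Agent.H68.UC
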