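import Pool.Agent.H68.UC.Series
import Pool.Agent.H23.UC.Stm4

/-!
# Random series with independent coefficients: lower bounds

If the densities of the coefficients `ξ n` are bounded from below near `t n`, then the law of
`∑' n, ξ n • h n` charges the planes parallel to `h n`, `h k` near `∑' n, t n • h n`.
-/

set_option autoImplicit false

open Set Filter Topology MeasureTheory

noncomputable section

namespace Pool.Agent.H68.UC

open Pool.Agent.H23.UC

/-- a lower bound of a measure of an interval, as an inequality of measures -/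
theorem restrict_le {a : Measure ℝ} {s r c : ℝ}
    (ha : ∀ A : Set ℝ, MeasurableSet A → A ⊆ Icc (s - r) (s + r) →
      ENNReal.ofReal c * volume A ≤ a A) :
    ENNReal.ofReal c • (volume : Measure ℝ).restrict (Icc (s - r) (s + r)) ≤ a := by
  refine Measure.le_iff.2 fun A hA => ?_
  rw [Measure.smul_apply, Measure.restrict_apply hA, smul_eq_mul]
  exact (ha _ (hA.inter measurableSet_Icc) inter_subset_right).trans
    (measure_mono inter_subset_left)

/-- the law on the plane of two independent numbers, from below -/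
theorem plane_ge {a b : Measure ℝ} [IsProbabilityMeasure a] [IsProbabilityMeasure b]
    {s t r1 r2 c d : ℝ} (hc : 0 < c)
    (ha : ∀ A : Set ℝ, MeasurableSet A → A ⊆ Icc (s - r1) (s + r1) →
      ENNReal.ofReal c * volume A ≤ a A)
    (hb : ∀ A : Set ℝ, MeasurableSet A → A ⊆ Icc (t - r2) (t + r2) →
      ENNReal.ofReal d * volume A ≤ b A) {A : Set ℂ} (hA : MeasurableSet A)
    (hs : A ⊆ Metric.closedBall (⟨s, t⟩ : ℂ) (min r1 r2)) :
    ENNReal.ofReal (c * d) * volume A ≤
      ((a.prod b).map Complex.measurableEquivRealProd.symm) A := by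
  have hm := Complex.measurableEquivRealProd.symm.measurable
  rw [Measure.map_apply hm hA]
  have h1 := Measure.prod_mono (restrict_le ha) (restrict_le hb)
  refine le_trans (le_of_eq ?_) (h1 (Complex.measurableEquivRealProd.symm ⁻¹' A))
  rw [Measure.prod_smul_left, Measure.prod_smul_right, smul_smul, Measure.prod_restrict,
    Measure.smul_apply, Measure.restrict_apply (hm hA), smul_eq_mul, ENNReal.ofReal_mul hc.le]
  congr 1
  have h2 : Complex.measurableEquivRealProd.symm ⁻¹' A ∩
      Icc (s - r1) (s + r1) ×ˢ Icc (t - r2) (t + r2) =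
      Complex.measurableEquivRealProd.symm ⁻¹' A := by
    refine inter_eq_left.2 fun p hp => ?_
    have h3 := hs hp
    rw [Metric.mem_closedBall, Complex.dist_eq] at h3
    have h4 := (Complex.abs_re_le_norm _).trans h3
    have h5 := (Complex.abs_im_le_norm _).trans h3
    rw [Complex.sub_re] at h4
    rw [Complex.sub_im] at h5
    have h6 : |p.1 - s| ≤ r1 := h4.trans (min_le_left _ _)
    have h7 : |p.2 - t| ≤ r2 := h5.trans (min_le_right _ _)
    rw [abs_le] at h6 h7
    exact ⟨⟨by linarith [h6.1], by linarith [h6.2]⟩, ⟨by linarith [h7.1], by linarith [h7.2]⟩⟩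
  rw [h2]
  have h8 := Complex.volume_preserving_equiv_real_prod.symm.measure_preimage
    hA.nullMeasurableSet
  exact h8.symm

theorem pos_of_open {a : Measure ℝ} {s r c : ℝ} (hr : 0 < r) (hc : 0 < c)
    (ha : ∀ A : Set ℝ, MeasurableSet A → A ⊆ Icc (s - r) (s + r) →
      ENNReal.ofReal c * volume A ≤ a A) {u : Set ℝ} (hu : IsOpen u) (hs : s ∈ u) : 0 < a u := by
  have h1 : 0 < volume (u ∩ Ioo (s - r) (s + r)) :=
    (hu.inter isOpen_Ioo).measure_pos volume ⟨s, hs, by constructor <;> linarith⟩
  have h2 := ha (u ∩ Ioo (s - r) (s + r)) (hu.inter isOpen_Ioo).measurableSet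
    (inter_subset_right.trans Ioo_subset_Icc_self)
  refine lt_of_lt_of_le ?_ (h2.trans (measure_mono inter_subset_left))
  exact ENNReal.mul_pos (ENNReal.ofReal_pos.2 hc).ne' h1.ne'

/-- product measures charge the neighbourhoods of a point if their factors do -/
theorem infinitePi_pos (ν : ℕ → Measure ℝ) [∀ n, IsProbabilityMeasure (ν n)] {t : ℕ → ℝ}
    (ht : ∀ n, ∀ u : Set ℝ, IsOpen u → t n ∈ u → 0 < ν n u) {O : Set (ℕ → ℝ)} (hO : IsOpen O)
    (htO : t ∈ O) : 0 < Measure.infinitePi ν O := by
  obtain ⟨I, u, hu, hI⟩ := isOpen_pi_iff.1 hO t htO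
  refine lt_of_lt_of_le ?_ (measure_mono hI)
  rw [Measure.infinitePi_pi]
  · exact pos_iff_ne_zero.2 (Finset.prod_ne_zero_iff.2 fun i hi =>
      (ht i _ (hu i hi).1 (hu i hi).2).ne')
  · intro i hi
    exact (hu i hi).1.measurableSet

theorem stSeriesLow : StSeriesLow := by
  intro E _ _ _ _ _ _ h ν _ t hI hs ht hlow n k hnk
  have hae : (fun ξ : ℕ → ℝ => ∑' n, ξ n • h n) =ᵐ[Measure.infinitePi ν] ser h ∅ := by
    filter_upwards [ae_mem ν hI] with ξ hξ
    refine tsum_congr fun j => ?_
    rw [if_neg (Finset.notMem_empty j), clip_of_mem (hξ j)]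
  have hm : ∀ D, Measurable (ser h D) := fun D => (continuous_ser hs D).measurable
  rw [Measure.map_congr hae]
  obtain ⟨r1, c, hr1, hc, hc'⟩ := hlow n
  obtain ⟨r2, d, hr2, hd, hd'⟩ := hlow k
  have he : Measurable fun p : E × ℂ => p.1 + (p.2.re • h n + p.2.im • h k) := by
    have : Continuous fun p : E × ℂ => p.1 + (p.2.re • h n + p.2.im • h k) := by
      fun_prop
    exact this.measurable
  have hsy := Complex.measurableEquivRealProd.symm.measurable
  have htc : ∀ j, clip (t j) = t j := fun j => clip_of_mem (abs_le.1 (ht j))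
  have hφ : (∑' j, t j • h j) - (t n • h n + t k • h k) = ser h {n, k} t := by
    have h1 := ser_update hs hnk t (t n) (t k)
    rw [Function.update_eq_self, Function.update_eq_self, htc, htc] at h1
    rw [sub_eq_iff_eq_add, ← h1]
    refine tsum_congr fun j => ?_
    rw [if_neg (Finset.notMem_empty j), htc]
  refine ⟨(Measure.infinitePi ν).map (ser h {n, k}),
    ((ν n).prod (ν k)).map Complex.measurableEquivRealProd.symm, ⟨t n, t k⟩, min r1 r2, c * d,
    Measure.isProbabilityMeasure_map (hm _).aemeasurable,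
    Measure.isProbabilityMeasure_map hsy.aemeasurable, lt_min hr1 hr2, mul_pos hc hd,
    fun A hA hA' => plane_ge hc hc' hd' hA hA', ?_, ?_⟩
  · intro ρ hρ
    change 0 < ((Measure.infinitePi ν).map (ser h {n, k}))
      (Metric.closedBall ((∑' j, t j • h j) - (t n • h n + t k • h k)) ρ)
    rw [hφ, Measure.map_apply (hm _) Metric.isClosed_closedBall.measurableSet]
    refine lt_of_lt_of_le (infinitePi_pos ν (t := t) ?_
      ((Metric.isOpen_ball (x := ser h {n, k} t) (ε := ρ)).preimage (continuous_ser hs {n, k})) ?_)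
      (measure_mono (preimage_mono Metric.ball_subset_closedBall))
    · intro j u hu hj
      obtain ⟨r, e, hr, he, he'⟩ := hlow j
      exact pos_of_open hr he he' hu hj
    · exact Metric.mem_ball_self hρ
  · have hU : Measurable fun p : (ℕ → ℝ) × (ℝ × ℝ) =>
        Function.update (Function.update p.1 n p.2.1) k p.2.2 :=
      (measurable_update k).comp
        (((measurable_update n).comp
          (measurable_fst.prodMk (measurable_fst.comp measurable_snd))).prodMk
        (measurable_snd.comp measurable_snd))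
    have h1 : (Measure.infinitePi ν).map (ser h ∅) =
        ((Measure.infinitePi ν).prod ((ν n).prod (ν k))).map (ser h ∅ ∘
          fun p : (ℕ → ℝ) × (ℝ × ℝ) =>
            Function.update (Function.update p.1 n p.2.1) k p.2.2) := by
      rw [← Measure.map_map (hm ∅) hU, infinitePi_update_two]
    rw [h1, Measure.map_prod_map _ _ (hm _) hsy, Measure.map_map he ((hm _).prodMap hsy)]
    refine Measure.map_congr ?_
    have hx : ∀ᵐ p ∂((Measure.infinitePi ν).prod ((ν n).prod (ν k))),
        p.2.1 ∈ Icc (-1 : ℝ) 1 := by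
      have h2 := (Measure.quasiMeasurePreserving_snd (μ := Measure.infinitePi ν)
        (ν := (ν n).prod (ν k))).ae (p := fun q => q.1 ∈ Icc (-1 : ℝ) 1)
        ((Measure.quasiMeasurePreserving_fst (μ := ν n) (ν := ν k)).ae
          (p := fun x => x ∈ Icc (-1 : ℝ) 1) (ae_iff.2 (hI n)))
      exact h2
    have hy : ∀ᵐ p ∂((Measure.infinitePi ν).prod ((ν n).prod (ν k))),
        p.2.2 ∈ Icc (-1 : ℝ) 1 := by
      have h2 := (Measure.quasiMeasurePreserving_snd (μ := Measure.infinitePi ν)
        (ν := (ν n).prod (ν k))).ae (p := fun q => q.2 ∈ Icc (-1 : ℝ) 1)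
        ((Measure.quasiMeasurePreserving_snd (μ := ν n) (ν := ν k)).ae
          (p := fun x => x ∈ Icc (-1 : ℝ) 1) (ae_iff.2 (hI k)))
      exact h2
    filter_upwards [hx, hy] with p h3 h4
    simp only [Function.comp_apply]
    rw [ser_update hs hnk, clip_of_mem h3, clip_of_mem h4]
    rfl

end Pool.Agent.H68.UC
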